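import Pool.Agent.Work.MP_0f1017_co.ExBall
import Pool.Agent.Work.MP_0f1017_co.ShellConstr

/-!
A shellable (hence constructible) simplicial 3-ball that is not convex union representable.

The example has 11 vertices and 26 facets and contains a knotted spanning path with three edges.
The obstruction: labellings of the nerve (sections of a 3-fold branched cover over the path) can be
swept over convex sets.
-/

open Pool.Agent.CURep

namespace Pool.Agent.Results.MP_0f1017_co.ShellableBallNotCUR

theorem result : ∃ Δ : Set (Finset (Fin 11)), IsSimplicialBall 3 Δ ∧ Shellable 3 Δ ∧
    Constructible 4 Δ ∧ ¬ ConvexUnionRepresentable Δ :=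
  ⟨exDelta, exDelta_ball, exDelta_shellable, exDelta_shellable.constructible exDelta_isComplex,
    exDelta_not_cur⟩

end Pool.Agent.Results.MP_0f1017_co.ShellableBallNotCUR
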